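import Mathlib

/-!
# Ring identities for the modular equation of degree 7
-/

set_option autoImplicit false

namespace Pool.Agent.V5helper9.FR.M

variable {F : Type*} [Field F]

/-- `t⁷ - ∑ a_j(T) t^j` -/
def Phi (t T : F) : F :=
  t ^ 7 - (T + (28 * T + 49 * T ^ 2) * t + (322 * T + 1372 * T ^ 2 + 2401 * T ^ 3) * t ^ 2
    + (1904 * T + 15778 * T ^ 2 + 67228 * T ^ 3 + 117649 * T ^ 4) * t ^ 3
    + (5915 * T + 93296 * T ^ 2 + 773122 * T ^ 3 + 3294172 * T ^ 4 + 5764801 * T ^ 5) * t ^ 4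
    + (8624 * T + 289835 * T ^ 2 + 4571504 * T ^ 3 + 37882978 * T ^ 4 + 161414428 * T ^ 5
      + 282475249 * T ^ 6) * t ^ 5
    + (4018 * T + 422576 * T ^ 2 + 14201915 * T ^ 3 + 224003696 * T ^ 4 + 1856265922 * T ^ 5
      + 7909306972 * T ^ 6 + 13841287201 * T ^ 7) * t ^ 6)

theorem ring1 (t T : F) :
    T * (1 + 13 * t + 49 * t ^ 2) * (1 + 5 * t + t ^ 2) ^ 3
      - t ^ 7 * (1 + 13 * T + 49 * T ^ 2) * (1 + 245 * T + 2401 * T ^ 2) ^ 3
      = (49 * t * T - 1) * Phi t T := by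
  rw [Phi]; ring

/-- even part, multiplied by T -/
def Ev (v s : F) : F := 1 + 21 * v + (147 + 7 * s) * v ^ 2 + (343 + 49 * s) * v ^ 3

/-- odd part -/
def Od (v s : F) : F := 7 + 49 * v + (343 + 35 * s) * v ^ 2 - v ^ 3 * s ^ 2

theorem ring2 (v s T : F) (h : s * T = 1) :
    (Ev v s ^ 2 - v * Od v s ^ 2) * (Ev (-v) s ^ 2 + v * Od (-v) s ^ 2)
      = - s * Phi (v ^ 2 * s) T := by
  rw [Phi, Ev, Ev, Od, Od]
  have hT : T ≠ 0 := fun h0 => by rw [h0, mul_zero] at h; exact zero_ne_one h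
  have hs : s = 1 / T := by field_simp; exact h
  subst hs
  field_simp
  ring

end Pool.Agent.V5helper9.FR.M
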