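import Pool.Agent.V5helper40.FR.Jobs2
import Pool.Agent.V5helper9.FR.M12a

/-!
# The modular equations of degree 7
-/

set_option autoImplicit false

namespace Pool.Agent.V5helper9.FR

open Pool.Agent.V5helper40.FR HahnSeries
open Pool.Agent.V5helper9.FR.M (Phi Ev Od)

noncomputable section

/-- `T` -/
def TT : K := psi tt

theorem TT_ne : TT ≠ 0 := psi_ne tt_ne

/-- `ψψη` -/
def pe2 : K := psi (psi eta)

theorem pe2_ne : pe2 ≠ 0 := psi_ne psi_eta_ne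

theorem TT_eq : TT = (pe2 / psi eta) ^ 4 := by
  rw [TT, tt, map_pow, map_div₀]; rfl

theorem om_ne : om ≠ 0 := div_ne_zero eta_ne pe2_ne

theorem tT_om : tt * TT = (om⁻¹) ^ 4 := by
  have h1 := eta_ne
  have h2 := psi_eta_ne
  have h3 := pe2_ne
  rw [TT_eq, tt, om]
  change (psi eta / eta) ^ 4 * (pe2 / psi eta) ^ 4 = ((eta / pe2)⁻¹) ^ 4
  field_simp

theorem eqA (h : Rels) :
    AA ^ 4 * ((1 + 13 * tt + 49 * tt ^ 2) * (1 + 5 * tt + tt ^ 2) ^ 3)
      = psi AA ^ 4 * ((1 + 13 * TT + 49 * TT ^ 2) * (1 + 245 * TT + 2401 * TT ^ 2) ^ 3) := by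
  have e1 := h.pE4e
  have e2 := congrArg psi h.E4e
  have e3 := h.th3
  have e4 := congrArg psi h.th3
  simp only [map_mul, map_add, map_pow, map_one, map_ofNat] at e2 e4
  change psi E4 = psi thh * psi AA * (1 + 245 * TT + 2401 * TT ^ 2) at e2
  change psi thh ^ 3 = psi AA * (1 + 13 * TT + 49 * TT ^ 2) at e4
  calc AA ^ 4 * ((1 + 13 * tt + 49 * tt ^ 2) * (1 + 5 * tt + tt ^ 2) ^ 3)
      = (AA * (1 + 13 * tt + 49 * tt ^ 2)) * AA ^ 3 * (1 + 5 * tt + tt ^ 2) ^ 3 := by ring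
    _ = (thh * AA * (1 + 5 * tt + tt ^ 2)) ^ 3 := by rw [← e3]; ring
    _ = (psi thh * psi AA * (1 + 245 * TT + 2401 * TT ^ 2)) ^ 3 := by rw [← e1, e2]
    _ = psi thh ^ 3 * psi AA ^ 3 * (1 + 245 * TT + 2401 * TT ^ 2) ^ 3 := by ring
    _ = _ := by rw [e4]; ring

theorem eqB : AA ^ 4 * tt ^ 7 = psi AA ^ 4 * TT := by
  have h1 := eta_ne
  have h2 := psi_eta_ne
  have h3 := pe2_ne
  have e : psi AA = psi eta ^ 7 / pe2 := by
    rw [AA, map_div₀, map_pow]; rfl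
  rw [e, TT_eq, AA, tt]
  field_simp

theorem eqC (h : Rels) :
    TT * (1 + 13 * tt + 49 * tt ^ 2) * (1 + 5 * tt + tt ^ 2) ^ 3
      = tt ^ 7 * (1 + 13 * TT + 49 * TT ^ 2) * (1 + 245 * TT + 2401 * TT ^ 2) ^ 3 := by
  have a := eqA h
  have b := eqB
  have hA := AA_ne
  apply mul_left_cancel₀ (pow_ne_zero 4 hA)
  linear_combination TT * a
    - ((1 + 13 * TT + 49 * TT ^ 2) * (1 + 245 * TT + 2401 * TT ^ 2) ^ 3) * b

theorem ofQ_const_ne {p : PowerSeries ℂ} (h : PowerSeries.constantCoeff p ≠ 0) : ofQ p ≠ 0 :=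
  ofQ_ne (fun h0 => h (by rw [h0, map_zero]))

theorem nz1 : (49 : K) * tt * TT - 1 ≠ 0 := by
  have e : (49 : K) * tt * TT - 1 = ofQ (49 * tP * subq 7 tP - 1) := by
    rw [map_sub, map_mul, map_mul, map_one, map_ofNat, ← psi_ofQ, ← tt_eq]; rfl
  rw [e]
  apply ofQ_const_ne
  rw [map_sub, map_mul, map_mul, map_one, tP_const]
  simp

theorem phi0 (h : Rels) : Phi tt TT = 0 := by
  have a := M.ring1 tt TT
  rw [eqC h, sub_self] at a
  exact (mul_eq_zero.1 a.symm).resolve_left nz1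

/-! ### Watson's equation -/

/-- `T⁻¹` -/
def ss : K := TT⁻¹

/-- `1/w` -/
def uu : K := om⁻¹

theorem sT : ss * TT = 1 := inv_mul_cancel₀ TT_ne

/-- the Euler product in `q^49` over the Euler product -/
def gP : PowerSeries ℂ := subq 7 (subq 7 PE) * PE⁻¹

theorem P49_const : PowerSeries.constantCoeff (subq 7 (subq 7 PE)) = 1 := by
  rw [← PowerSeries.coeff_zero_eq_constantCoeff_apply, subq_coeff_zero, subq_coeff_zero]
  exact euler_coeff_zero

theorem gP_const : PowerSeries.constantCoeff gP = 1 := by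
  rw [gP, map_mul, P49_const, PowerSeries.constantCoeff_inv, PE_const]; simp

/-- `T = X^7 hP` -/
def hP : PowerSeries ℂ := (subq 7 (subq 7 PE) * (subq 7 PE)⁻¹) ^ 4

theorem hP_const : PowerSeries.constantCoeff hP = 1 := by
  rw [hP, map_pow, map_mul, P49_const, PowerSeries.constantCoeff_inv, P7_const]; simp

theorem pe2_eq : pe2 = xx ^ 49 * ofQ (subq 7 (subq 7 PE)) := by
  rw [pe2, psi_eta_eq, map_mul, map_pow, psi_xx, psi_ofQ, ← pow_mul]

theorem uu_eq : uu = ofQ (PowerSeries.X ^ 2 * gP) := by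
  have h1 := xx_ne
  have h2 : ofQ PE ≠ 0 := ofQ_ne euler_ne
  rw [uu, om, gP, map_mul, map_pow, map_mul, ofQ_inv (by rw [PE_const]; exact one_ne_zero), ofQ_X]
  change (eta / pe2)⁻¹ = _
  rw [inv_div, pe2_eq, eta_eq]
  field_simp

theorem TT_ofQ : TT = ofQ (PowerSeries.X ^ 7 * hP) := by
  have h1 := xx_ne
  have h3 : ofQ (subq 7 PE) ≠ 0 := fun h => psi_eta_ne (by rw [psi_eta_eq, h, mul_zero])
  rw [TT_eq, hP, map_mul, map_pow, map_pow, map_mul,
    ofQ_inv (by rw [P7_const]; exact one_ne_zero), ofQ_X, pe2_eq, psi_eta_eq]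
  field_simp

theorem hP_ne : ofQ hP ≠ 0 := ofQ_const_ne (by rw [hP_const]; exact one_ne_zero)

theorem a_eq : uu ^ 4 * ss = ofQ (PowerSeries.X * (gP ^ 4 * hP⁻¹)) := by
  have h1 := xx_ne
  have h2 := hP_ne
  rw [ss, TT_ofQ, uu_eq]
  simp only [map_mul, map_pow, ofQ_X, ofQ_inv (by rw [hP_const]; exact one_ne_zero :
    PowerSeries.constantCoeff hP ≠ 0)]
  field_simp

theorem b_eq : uu ^ 7 * ss ^ 2 = ofQ (gP ^ 7 * (hP⁻¹) ^ 2) := by
  have h1 := xx_ne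
  have h2 := hP_ne
  rw [ss, TT_ofQ, uu_eq]
  simp only [map_mul, map_pow, ofQ_X, ofQ_inv (by rw [hP_const]; exact one_ne_zero :
    PowerSeries.constantCoeff hP ≠ 0)]
  field_simp

/-- the three power series -/
def p1 : PowerSeries ℂ := PowerSeries.X ^ 2 * gP
def p2 : PowerSeries ℂ := PowerSeries.X * (gP ^ 4 * hP⁻¹)
def p3 : PowerSeries ℂ := gP ^ 7 * (hP⁻¹) ^ 2

theorem p1_const : PowerSeries.constantCoeff p1 = 0 := by
  rw [p1, map_mul, map_pow, PowerSeries.constantCoeff_X]; simp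
theorem p2_const : PowerSeries.constantCoeff p2 = 0 := by
  rw [p2, map_mul, PowerSeries.constantCoeff_X, zero_mul]
theorem p3_const : PowerSeries.constantCoeff p3 = 1 := by
  rw [p3, map_mul, map_pow, map_pow, PowerSeries.constantCoeff_inv, gP_const, hP_const]; simp

theorem nz2 : Ev (uu ^ 2) ss - uu * Od (uu ^ 2) ss ≠ 0 := by
  have e : Ev (uu ^ 2) ss - uu * Od (uu ^ 2) ss
      = ofQ (1 + 21 * p1 ^ 2 + 147 * p1 ^ 4 + 7 * p2 + 343 * p1 ^ 6 + 49 * p2 * p1 ^ 2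
        - 7 * p1 - 49 * p1 ^ 3 - 343 * p1 ^ 5 - 35 * p1 * p2 + p3) := by
    simp only [map_add, map_sub, map_mul, map_pow, map_one, map_ofNat]
    rw [p1, ← uu_eq, p2, ← a_eq, p3, ← b_eq, Ev, Od]
    ring
  rw [e]
  apply ofQ_const_ne
  simp only [map_add, map_sub, map_mul, map_pow, map_one, map_ofNat, p1_const, p2_const, p3_const]
  norm_num

theorem nz3 : Ev (-uu ^ 2) ss ^ 2 + uu ^ 2 * Od (-uu ^ 2) ss ^ 2 ≠ 0 := by
  have e : Ev (-uu ^ 2) ss ^ 2 + uu ^ 2 * Od (-uu ^ 2) ss ^ 2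
      = ofQ ((1 - 21 * p1 ^ 2 + 147 * p1 ^ 4 + 7 * p2 - 343 * p1 ^ 6 - 49 * p2 * p1 ^ 2) ^ 2
        + (7 * p1 - 49 * p1 ^ 3 + 343 * p1 ^ 5 + 35 * p1 * p2 + p3) ^ 2) := by
    simp only [map_add, map_sub, map_mul, map_pow, map_one, map_ofNat]
    rw [p1, ← uu_eq, p2, ← a_eq, p3, ← b_eq, Ev, Od]
    ring
  rw [e]
  apply ofQ_const_ne
  simp only [map_add, map_sub, map_mul, map_pow, map_one, map_ofNat, p1_const, p2_const, p3_const]
  norm_num

theorem t_uu : tt = (uu ^ 2) ^ 2 * ss := by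
  have h := tT_om
  have hT := TT_ne
  rw [ss, uu]
  field_simp
  rw [h]
  field_simp

theorem wat0 (h : Rels) : Ev (uu ^ 2) ss + uu * Od (uu ^ 2) ss = 0 := by
  have a := M.ring2 (uu ^ 2) ss TT sT
  rw [← t_uu, phi0 h, mul_zero] at a
  have b : (Ev (uu ^ 2) ss ^ 2 - uu ^ 2 * Od (uu ^ 2) ss ^ 2)
      = (Ev (uu ^ 2) ss + uu * Od (uu ^ 2) ss) * (Ev (uu ^ 2) ss - uu * Od (uu ^ 2) ss) := by ring
  rw [b] at a
  rcases mul_eq_zero.1 a with c | c
  · exact (mul_eq_zero.1 c).resolve_right nz2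
  · exact absurd c nz3

theorem m12 (h : Rels) :
    (tt ^ 7 = ev (psi tt) (aL 0) + ev (psi tt) (aL 1) * tt + ev (psi tt) (aL 2) * tt ^ 2
      + ev (psi tt) (aL 3) * tt ^ 3 + ev (psi tt) (aL 4) * tt ^ 4 + ev (psi tt) (aL 5) * tt ^ 5
      + ev (psi tt) (aL 6) * tt ^ 6) ∧
    (om ^ 7 + 7 * om ^ 6 + 21 * om ^ 5 + 49 * om ^ 4 + (147 + 7 * (psi tt)⁻¹) * om ^ 3
      + (343 + 35 * (psi tt)⁻¹) * om ^ 2 + (343 + 49 * (psi tt)⁻¹) * om = ((psi tt)⁻¹) ^ 2) := by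
  constructor
  · have a := phi0 h
    rw [Phi] at a
    change tt ^ 7 = ev TT (aL 0) + ev TT (aL 1) * tt + ev TT (aL 2) * tt ^ 2
      + ev TT (aL 3) * tt ^ 3 + ev TT (aL 4) * tt ^ 4 + ev TT (aL 5) * tt ^ 5
      + ev TT (aL 6) * tt ^ 6
    simp only [aL, ev_cons, ev_nil]
    push_cast
    linear_combination a
  · have a := wat0 h
    have hw := om_ne
    rw [Ev, Od] at a
    change om ^ 7 + 7 * om ^ 6 + 21 * om ^ 5 + 49 * om ^ 4 + (147 + 7 * ss) * om ^ 3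
      + (343 + 35 * ss) * om ^ 2 + (343 + 49 * ss) * om = ss ^ 2
    have e : om * uu = 1 := mul_inv_cancel₀ hw
    generalize uu = u at *
    generalize ss = s at *
    generalize om = w at *
    have hu : u = 1 / w := by field_simp; linear_combination e
    subst hu
    have b := congrArg (fun z => w ^ 7 * z) a
    simp only [mul_zero] at b
    field_simp at b
    linear_combination b

end

end Pool.Agent.V5helper9.FR
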