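import Pool.Agent.V5helper9.FR.TR

/-!
# The modular differential equation of the theta functions
-/

set_option autoImplicit false

open UpperHalfPlane hiding I
open Real Complex Filter Topology Derivative EisensteinSeries ModularForm MatrixGroups Function
open scoped Manifold MatrixGroups ModularForm
open Pool.Agent.R322.QD (th e2 e4 e6 good_E2 good_E4 good_E6 Good)
open Pool.Agent.V5helper40.FR (subq tht)
open Pool.Agent.R396.QM (HasQ)

namespace Pool.Agent.V5helper9.FR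

noncomputable section

lemma HX_tj (j : Fin 4) : HX (tj j) (tht (j : ℕ)) := HX_tf _

/-- `ϑ_j(-1/τ)` -/
lemma Tr_tj (j : Fin 4) : Tr 0 (tj j) (∑ l, MM j l • tj l) := by
  intro τ
  rw [tj_S, Finset.sum_apply]
  unfold cn
  simp [smul_eq_mul]

lemma vF_tj_S (i : Fin 5) (j : Fin 4) (τ : ℍ) :
    vF i (tj j) (ModularGroup.S • τ) = cn i τ * ∑ l, MM j l * vF i (tj l) τ := by
  have h1 : HX (∑ l, MM j l • tj l) (∑ l, MM j l • tht (l : ℕ)) :=
    HX.sum _ fun l _ => (HX_tj l).smul _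
  have h2 := Tr.vF (HX_tj j) h1 (Tr_tj j) i τ
  rw [h2, vF_sum HX_tj, Finset.sum_apply]
  simp [smul_eq_mul]

/-- the matrices of functions -/
def AF (σ : Fin 4 → Fin 5) : Matrix (Fin 4) (Fin 4) (ℍ → ℂ) := fun j k => vF (σ k) (tj j)

/-- the matrices of power series -/
def AP (σ : Fin 4 → Fin 5) : Matrix (Fin 4) (Fin 4) (PowerSeries ℂ) := fun j k => vP (σ k) (tht (j : ℕ))

/-- the matrices of `q`-series -/
def AQ (σ : Fin 4 → Fin 5) : Matrix (Fin 4) (Fin 4) (PowerSeries ℂ) := fun j k => wQ (ee j) (σ k) (hh j)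

lemma HX_det (σ : Fin 4 → Fin 5) : HX (AF σ).det (AP σ).det :=
  HX.det fun j k => (HX_tj j).vF (σ k)

lemma det_AP (σ : Fin 4 → Fin 5) : (AP σ).det = PowerSeries.X ^ 28 * ex (AQ σ).det := by
  have h1 : AP σ = fun j k => (PowerSeries.X ^ ee j : PowerSeries ℂ) * ((ex : PowerSeries ℂ →+* PowerSeries ℂ).mapMatrix (AQ σ)) j k := by
    funext j k
    show vP (σ k) (tht (j : ℕ)) = _
    rw [tht_eq, vP_em]
    rfl
  rw [h1]
  have h2 := Matrix.det_mul_column (fun j : Fin 4 => (PowerSeries.X ^ ee j : PowerSeries ℂ))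
    ((ex : PowerSeries ℂ →+* PowerSeries ℂ).mapMatrix (AQ σ))
  have h3 : (Matrix.of fun i j => (fun j : Fin 4 => (PowerSeries.X ^ ee j : PowerSeries ℂ)) i *
    ((ex : PowerSeries ℂ →+* PowerSeries ℂ).mapMatrix (AQ σ)) i j).det = (Matrix.det fun j k =>
      (PowerSeries.X ^ ee j : PowerSeries ℂ) * ((ex : PowerSeries ℂ →+* PowerSeries ℂ).mapMatrix (AQ σ)) j k) := rfl
  rw [← h3, h2, Fin.prod_univ_four, ← RingHom.map_det]
  congr 1
  simp only [ee]
  rw [← pow_add, ← pow_add, ← pow_add]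
  rfl

/-- the exponent of the sum of the weights -/
def sg (σ : Fin 4 → Fin 5) : ℕ := ∑ k, (σ k : ℕ)

lemma det_MM : MM.det = 36 := by
  unfold MM
  simp [Matrix.det_succ_row_zero, Fin.sum_univ_succ, Fin.succAbove]
  norm_num

lemma c0_pow (τ : ℍ) : c0 τ ^ 4 = -(τ : ℂ) ^ 2 / 36 := by
  unfold c0
  have hI : (-Complex.I * (τ : ℂ)) ≠ 0 := mul_ne_zero (neg_ne_zero.2 Complex.I_ne_zero) τ.ne_zero
  have h1 : ((-Complex.I * (τ : ℂ)) ^ (1 / 2 : ℂ)) ^ 4 = (-Complex.I * (τ : ℂ)) ^ 2 := by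
    rw [← Complex.cpow_nat_mul]
    have : ((4 : ℕ) : ℂ) * (1 / 2) = (2 : ℕ) := by push_cast; norm_num
    rw [this, Complex.cpow_natCast]
  have h2 : (((Real.sqrt 6 : ℝ) : ℂ)) ^ 4 = 36 := by
    have : (Real.sqrt 6) ^ 4 = 36 := by
      have h := Real.sq_sqrt (by norm_num : (0 : ℝ) ≤ 6)
      calc (Real.sqrt 6) ^ 4 = ((Real.sqrt 6) ^ 2) ^ 2 := by ring
        _ = 36 := by rw [h]; norm_num
    exact_mod_cast this
  rw [div_pow, h1, h2, mul_pow, neg_sq, Complex.I_sq]
  ring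

/-- the matrices of values -/
def AV (σ : Fin 4 → Fin 5) (τ : ℍ) : Matrix (Fin 4) (Fin 4) ℂ := fun j k => vF (σ k) (tj j) τ

/-- the transformation of the determinants -/
lemma det_S (σ : Fin 4 → Fin 5) (τ : ℍ) :
    (AF σ).det (ModularGroup.S • τ) = -(τ : ℂ) ^ (2 + 2 * sg σ) * (AF σ).det τ := by
  have ev : ∀ w : ℍ, (AF σ).det w = (AV σ w).det := by
    intro w
    have := RingHom.map_det (Pi.evalRingHom (fun _ : ℍ => ℂ) w) (AF σ)
    exact this
  rw [ev, ev]
  have h1 : AV σ (ModularGroup.S • τ) = MM * (Matrix.of fun l k => cn (σ k) τ * AV σ τ l k) := by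
    ext j k
    rw [Matrix.mul_apply]
    show vF (σ k) (tj j) (ModularGroup.S • τ) = ∑ l, MM j l * (cn (σ k) τ * vF (σ k) (tj l) τ)
    rw [vF_tj_S, Finset.mul_sum]
    refine Finset.sum_congr rfl fun l _ => ?_
    ring
  rw [h1, Matrix.det_mul, Matrix.det_mul_row (fun k => cn (σ k) τ), det_MM, Fin.prod_univ_four]
  unfold cn sg
  rw [Fin.sum_univ_four]
  have h2 := c0_pow τ
  calc _ = 36 * (c0 τ ^ 4 * (τ : ℂ) ^ (2 * ((σ 0 : ℕ) + σ 1 + σ 2 + σ 3)) *
        (AV σ τ).det) := by ring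
    _ = _ := by rw [h2]; ring

/-- the `q`-series of the sixth power -/
def cQ (σ : Fin 4 → Fin 5) : PowerSeries ℂ := PowerSeries.X ^ 7 * (AQ σ).det ^ 6

lemma det_pow (σ : Fin 4 → Fin 5) : (AP σ).det ^ 6 = ex (cQ σ) := by
  rw [det_AP, cQ, map_mul, map_pow, map_pow, mul_pow, ← pow_mul]
  have : ex (PowerSeries.X : PowerSeries ℂ) = PowerSeries.X ^ 24 := by
    unfold ex
    exact PowerSeries.expand_X _ _
  rw [this, ← pow_mul]

lemma hasQ_det (σ : Fin 4 → Fin 5) : HasQ ((AF σ).det ^ 6) (fun n => (cQ σ).coeff n) := by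
  intro τ
  have h := (HX_det σ).pow 6 τ
  rw [det_pow, ← subq_eq, hasSum_subq_iff] at h
  exact h

/-- The sixth power is a modular form of level one. -/
lemma det_zero (σ : Fin 4 → Fin 5) (h4 : ∃ k, σ k = 4) (hs : sg σ ≤ 10) : (AP σ).det = 0 := by
  have hcc : PowerSeries.constantCoeff (AQ σ).det = 0 := by
    obtain ⟨k, hk⟩ := h4
    rw [RingHom.map_det]
    refine Matrix.det_eq_zero_of_column_eq_zero k fun j => ?_
    show PowerSeries.constantCoeff (wQ (ee j) (σ k) (hh j)) = 0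
    rw [hk, cc_wQ]
    have : lc ((ee j : ℕ) : ℂ) 4 = 0 := by
      unfold lc ee
      fin_cases j <;> norm_num
    rw [this, zero_mul]
  obtain ⟨g, hg⟩ := PowerSeries.X_dvd_iff.2 hcc
  have hX : (PowerSeries.X : PowerSeries ℂ) ^ 13 ∣ cQ σ := ⟨g ^ 6, by
    rw [cQ, hg, mul_pow, ← mul_assoc, ← pow_add]⟩
  have hQ := hasQ_det σ
  have hSl : ((AF σ).det ^ 6) ∣[((12 + 12 * sg σ : ℕ) : ℤ)] ModularGroup.S = (AF σ).det ^ 6 := by
    funext τ
    have hτ : (τ : ℂ) ≠ 0 := τ.ne_zero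
    rw [SL_slash_apply, ModularGroup.denom_S, Pi.pow_apply, det_S, Pi.pow_apply, zpow_neg,
      zpow_natCast, mul_pow]
    have e1 : (-(τ : ℂ) ^ (2 + 2 * sg σ)) ^ 6 = (τ : ℂ) ^ (12 + 12 * sg σ) := by
      rw [Even.neg_pow (by decide : Even 6), ← pow_mul]
      congr 1
      ring
    rw [e1]
    field_simp
  obtain ⟨f, hf⟩ := hQ.form hSl
  have hord : (((12 + 12 * sg σ) / 12 : ℕ) : ℕ∞) < (qExpansion 1 f).order := by
    have hq : qExpansion 1 (f : ℍ → ℂ) = cQ σ := by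
      rw [hf]
      ext n
      exact Pool.Agent.R322.QD.coeff_unique hQ.analytic hQ.smul_form n
    rw [hq]
    have h13 : ((13 : ℕ) : ℕ∞) ≤ (cQ σ).order :=
      PowerSeries.nat_le_order _ _ (PowerSeries.X_pow_dvd_iff.1 hX)
    refine lt_of_lt_of_le ?_ h13
    have : (12 + 12 * sg σ) / 12 < 13 := by omega
    exact_mod_cast this
  have hf0 := ModularForm.sturm_bound_levelOne_nat hord
  have hz : HasQ ((AF σ).det ^ 6) (fun _ => 0) := by
    intro τ
    rw [← hf, hf0]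
    simp [hasSum_zero]
  have hc := hQ.unique hz
  have h0 : cQ σ = 0 := by
    ext n
    rw [congrFun hc n, map_zero]
  have h6 : (AP σ).det ^ 6 = 0 := by rw [det_pow, h0, map_zero]
  exact pow_eq_zero_iff (by norm_num) |>.1 h6

/-- the Wronskian does not vanish -/
lemma det_ne_zero : (AP Fin.castSucc).det ≠ 0 := by
  rw [det_AP]
  refine mul_ne_zero (pow_ne_zero _ PowerSeries.X_ne_zero) ?_
  rw [Ne, map_eq_zero_iff _ ex_injective]
  intro h
  have h1 := congrArg PowerSeries.constantCoeff h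
  rw [RingHom.map_det, map_zero] at h1
  have h2 : (PowerSeries.constantCoeff.mapMatrix (AQ Fin.castSucc)) =
      Matrix.of fun j k => PowerSeries.constantCoeff (hh j) * (Matrix.of fun (j : Fin 4) (k : Fin 4) =>
        lc ((ee j : ℕ) : ℂ) k.castSucc) j k := by
    ext j k
    show PowerSeries.constantCoeff (wQ (ee j) k.castSucc (hh j)) = _
    rw [cc_wQ, mul_comm]
    rfl
  rw [h2, Matrix.det_mul_column] at h1
  rcases mul_eq_zero.1 h1 with h3 | h3
  · obtain ⟨j, -, hj⟩ := Finset.prod_eq_zero_iff.1 h3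
    exact cc_hh j hj
  · have h5 : (Matrix.of fun (j : Fin 4) (k : Fin 4) => lc ((ee j : ℕ) : ℂ) k.castSucc) =
        !![1, -1, 5, -45; 1, 1, -3, 21; 1, 7, 21, -21; 1, 17, 221, 1989] := by
      ext j k
      fin_cases j <;> fin_cases k <;> simp [lc, ee] <;> norm_num
    rw [h5] at h3
    revert h3
    simp [Matrix.det_succ_row_zero, Fin.sum_univ_succ, Fin.succAbove]
    norm_num

/-- The modular differential equation. -/
theorem vP_four (j : Fin 4) : vP 4 (tht (j : ℕ)) = 0 := by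
  set A := AP Fin.castSucc with hA
  set b : Fin 4 → PowerSeries ℂ := fun j => vP 4 (tht (j : ℕ)) with hb
  have h1 : Matrix.cramer A b = 0 := by
    funext i
    rw [Matrix.cramer_apply]
    have h2 : A.updateCol i b = AP (Function.update Fin.castSucc i 4) := by
      refine Matrix.ext fun j k => ?_
      rw [Matrix.updateCol_apply]
      by_cases hk : k = i
      · rw [if_pos hk, hb, hk]
        show _ = vP (Function.update Fin.castSucc i 4 i) (tht (j : ℕ))
        rw [Function.update_self]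
      · rw [if_neg hk]
        show vP (Fin.castSucc k) (tht (j : ℕ)) = vP (Function.update Fin.castSucc i 4 k) (tht (j : ℕ))
        rw [Function.update_of_ne hk]
    rw [h2]
    refine det_zero _ ⟨i, Function.update_self _ _ _⟩ ?_
    unfold sg
    clear h2
    revert i
    decide
  have h3 := Matrix.mulVec_cramer A b
  rw [h1, Matrix.mulVec_zero] at h3
  have h4 := congrFun h3 j
  rw [Pi.zero_apply, Pi.smul_apply, smul_eq_mul] at h4
  rcases mul_eq_zero.1 h4.symm with h5 | h5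
  · exact absurd h5 det_ne_zero
  · exact h5

/-- Job T3. -/
theorem t3 : Pool.Agent.V5helper40.FR.JobT3 := by
  intro j h0 h3
  obtain ⟨n, rfl⟩ := Int.eq_ofNat_of_zero_le h0
  have hn : n < 4 := by omega
  have h := vP_four ⟨n, hn⟩
  have h' : DPL 13 (DPL 9 (DPL 5 (DPL 1 (tht n)))) - (58 * ex e4 * (DPL 5 (DPL 1 (tht n)))
      - 176 * ex e6 * DPL 1 (tht n) + 119 * ex e4 ^ 2 * tht n) = 0 := h
  simp only [DPL_apply] at h'
  rw [subq_eq, subq_eq]
  linear_combination h'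

end

end Pool.Agent.V5helper9.FR
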