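import Pool.Agent.V5helper9.FR.QX

/-!
# The operators on power series
-/

set_option autoImplicit false

open Pool.Agent.R322.QD (th coeff_th th_mul e2 e4 e6 coeff_e2 coeff_e4 coeff_e6)
open Pool.Agent.V5helper40.FR (subq DP tht)

namespace Pool.Agent.V5helper9.FR

noncomputable section

open PowerSeries

/-- `p(q) ↦ p(x^24)` -/
def ex : PowerSeries ℂ →ₐ[ℂ] PowerSeries ℂ := PowerSeries.expand 24 (by norm_num)

lemma subq_eq (p : PowerSeries ℂ) : subq 24 p = ex p := by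
  ext n
  unfold subq ex
  rw [PowerSeries.coeff_mk, PowerSeries.coeff_expand]

lemma coeff_ex (p : PowerSeries ℂ) (n : ℕ) : (ex p).coeff n = if 24 ∣ n then p.coeff (n / 24) else 0 := by
  unfold ex
  rw [PowerSeries.coeff_expand]

lemma ex_injective : Function.Injective ex := by
  intro p r h
  ext n
  have := congrArg (fun f => PowerSeries.coeff (24 * n) f) h
  simpa [coeff_ex] using this

/-- `th` as a linear map -/
def thL : PowerSeries ℂ →ₗ[ℂ] PowerSeries ℂ where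
  toFun := th
  map_add' p r := by ext n; simp [coeff_th, mul_add]
  map_smul' c p := by ext n; simp [coeff_th]; ring

/-- `DP k` as a linear map -/
def DPL (k : ℂ) : PowerSeries ℂ →ₗ[ℂ] PowerSeries ℂ :=
  thL - LinearMap.mulLeft ℂ (PowerSeries.C k * ex e2)

lemma DPL_apply (k : ℂ) (p : PowerSeries ℂ) : DPL k p = DP k p := by
  unfold DPL DP
  rw [subq_eq, ← mul_assoc]
  rfl

/-- the five operators -/
def vP : Fin 5 → PowerSeries ℂ →ₗ[ℂ] PowerSeries ℂ
  | 0 => LinearMap.id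
  | 1 => DPL 1
  | 2 => DPL 5 ∘ₗ DPL 1
  | 3 => DPL 9 ∘ₗ DPL 5 ∘ₗ DPL 1
  | 4 => DPL 13 ∘ₗ DPL 9 ∘ₗ DPL 5 ∘ₗ DPL 1
      - (LinearMap.mulLeft ℂ (58 * ex e4) ∘ₗ DPL 5 ∘ₗ DPL 1
        - LinearMap.mulLeft ℂ (176 * ex e6) ∘ₗ DPL 1
        + LinearMap.mulLeft ℂ (119 * ex e4 ^ 2))

/-! ### The operators on `x^m p(x^24)` -/

/-- `x^m p(x^24)` -/
def em (m : ℕ) (p : PowerSeries ℂ) : PowerSeries ℂ := PowerSeries.X ^ m * ex p

lemma th_ex (p : PowerSeries ℂ) : th (ex p) = ex (24 * th p) := by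
  ext n
  rw [coeff_th, coeff_ex, coeff_ex]
  split_ifs with h
  · obtain ⟨k, rfl⟩ := h
    have h24 : (24 : PowerSeries ℂ) = PowerSeries.C 24 := by
      rw [map_ofNat]
    rw [h24, PowerSeries.coeff_C_mul, coeff_th, Nat.mul_div_cancel_left k (by norm_num)]
    push_cast
    ring
  · rw [mul_zero]

lemma th_X_pow (m : ℕ) : th (PowerSeries.X ^ m : PowerSeries ℂ) = PowerSeries.C (m : ℂ) * PowerSeries.X ^ m := by
  ext n
  rw [coeff_th, PowerSeries.coeff_C_mul, PowerSeries.coeff_X_pow]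
  split_ifs with h
  · rw [h]
  · simp

/-- the operator on `q`-series -/
def op (k : ℂ) (m : ℕ) (p : PowerSeries ℂ) : PowerSeries ℂ :=
  PowerSeries.C (m : ℂ) * p + 24 * th p - PowerSeries.C k * (e2 * p)

lemma ex_C (c : ℂ) : ex (PowerSeries.C c) = PowerSeries.C c := by
  unfold ex
  exact PowerSeries.expand_C _ _ _

lemma DPL_em (k : ℂ) (m : ℕ) (p : PowerSeries ℂ) : DPL k (em m p) = em m (op k m p) := by
  rw [DPL_apply]
  unfold DP em op
  rw [th_mul, th_X_pow, th_ex, subq_eq, map_sub, map_add, map_mul, map_mul, map_mul, map_mul, ex_C, ex_C]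
  ring

/-- the five operators on `q`-series -/
def wQ (m : ℕ) : Fin 5 → PowerSeries ℂ → PowerSeries ℂ
  | 0 => fun p => p
  | 1 => fun p => op 1 m p
  | 2 => fun p => op 5 m (op 1 m p)
  | 3 => fun p => op 9 m (op 5 m (op 1 m p))
  | 4 => fun p => op 13 m (op 9 m (op 5 m (op 1 m p)))
      - (58 * e4 * op 5 m (op 1 m p) - 176 * e6 * op 1 m p + 119 * e4 ^ 2 * p)

lemma ex_ofNat (n : ℕ) [n.AtLeastTwo] : ex (OfNat.ofNat n) = OfNat.ofNat n := map_ofNat _ _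

lemma vP_em (m : ℕ) (i : Fin 5) (p : PowerSeries ℂ) : vP i (em m p) = em m (wQ m i p) := by
  fin_cases i
  · rfl
  · exact DPL_em _ _ _
  · show DPL 5 (DPL 1 (em m p)) = _
    rw [DPL_em, DPL_em]; rfl
  · show DPL 9 (DPL 5 (DPL 1 (em m p))) = _
    rw [DPL_em, DPL_em, DPL_em]; rfl
  · show DPL 13 (DPL 9 (DPL 5 (DPL 1 (em m p)))) - (58 * ex e4 * (DPL 5 (DPL 1 (em m p)))
      - 176 * ex e6 * DPL 1 (em m p) + 119 * ex e4 ^ 2 * em m p) = _
    rw [DPL_em, DPL_em, DPL_em, DPL_em]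
    show _ = em m (op 13 m (op 9 m (op 5 m (op 1 m p)))
      - (58 * e4 * op 5 m (op 1 m p) - 176 * e6 * op 1 m p + 119 * e4 ^ 2 * p))
    unfold em
    rw [map_sub, map_add, map_sub, map_mul, map_mul, map_mul, map_mul, map_mul, map_mul, map_pow,
      ex_ofNat, ex_ofNat, ex_ofNat]
    ring

lemma cc_th (p : PowerSeries ℂ) : constantCoeff (th p) = 0 := by
  rw [← coeff_zero_eq_constantCoeff_apply, coeff_th]
  simp

lemma cc_e2 : constantCoeff e2 = 1 := by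
  rw [← coeff_zero_eq_constantCoeff_apply, coeff_e2]; simp

lemma cc_e4 : constantCoeff e4 = 1 := by
  rw [← coeff_zero_eq_constantCoeff_apply, coeff_e4]; simp

lemma cc_e6 : constantCoeff e6 = 1 := by
  rw [← coeff_zero_eq_constantCoeff_apply, coeff_e6]; simp

lemma cc_op (k : ℂ) (m : ℕ) (p : PowerSeries ℂ) :
    constantCoeff (op k m p) = ((m : ℂ) - k) * constantCoeff p := by
  unfold op
  simp only [map_sub, map_add, map_mul, cc_th, cc_e2, constantCoeff_C]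
  ring

/-- the leading coefficients -/
def lc (m : ℂ) : Fin 5 → ℂ
  | 0 => 1
  | 1 => m - 1
  | 2 => (m - 1) * (m - 5)
  | 3 => (m - 1) * (m - 5) * (m - 9)
  | 4 => (m - 1) * (m - 5) * (m - 9) * (m - 13) - (58 * ((m - 1) * (m - 5)) - 176 * (m - 1) + 119)

lemma cc_wQ (m : ℕ) (i : Fin 5) (p : PowerSeries ℂ) :
    constantCoeff (wQ m i p) = lc (m : ℂ) i * constantCoeff p := by
  fin_cases i
  · show constantCoeff p = 1 * _
    rw [one_mul]
  · show constantCoeff (op 1 m p) = _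
    rw [cc_op]; rfl
  · show constantCoeff (op 5 m (op 1 m p)) = _
    rw [cc_op, cc_op]
    show _ = ((m : ℂ) - 1) * ((m : ℂ) - 5) * _
    ring
  · show constantCoeff (op 9 m (op 5 m (op 1 m p))) = _
    rw [cc_op, cc_op, cc_op]
    show _ = ((m : ℂ) - 1) * ((m : ℂ) - 5) * ((m : ℂ) - 9) * _
    ring
  · show constantCoeff (op 13 m (op 9 m (op 5 m (op 1 m p)))
      - (58 * e4 * op 5 m (op 1 m p) - 176 * e6 * op 1 m p + 119 * e4 ^ 2 * p)) = _
    simp only [map_sub, map_add, map_mul, map_pow, cc_op, cc_e4, cc_e6, map_ofNat]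
    show _ = (((m : ℂ) - 1) * ((m : ℂ) - 5) * ((m : ℂ) - 9) * ((m : ℂ) - 13)
      - (58 * (((m : ℂ) - 1) * ((m : ℂ) - 5)) - 176 * ((m : ℂ) - 1) + 119)) * _
    ring

/-! ### The theta series -/

/-- the exponents -/
def ee (j : Fin 4) : ℕ := 2 * (j : ℕ) ^ 2

/-- `ϑ_j = x^{2 j²} h_j(x^24)` -/
def hh (j : Fin 4) : PowerSeries ℂ := PowerSeries.mk fun n => (tht (j : ℕ)).coeff (24 * n + ee j)

lemma coeff_tht_eq_zero (j : Fin 4) (n : ℕ) (h : ∀ k, n ≠ 24 * k + ee j) : (tht (j : ℕ)).coeff n = 0 := by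
  unfold tht
  rw [coeff_mk, Nat.cast_eq_zero, Finset.card_eq_zero, Finset.filter_eq_empty_iff]
  rintro r - ⟨⟨k, hk⟩, h2⟩
  have hr : r = 6 * k + (j : ℕ) := by omega
  have e1 : (n : ℤ) = 24 * (3 * k ^ 2 + (j : ℕ) * k) + 2 * (j : ℕ) ^ 2 := by
    rw [← h2, hr]; ring
  have hj : ((j : ℕ) : ℤ) ≤ 3 := by have := j.2; omega
  have hj0 : (0 : ℤ) ≤ ((j : ℕ) : ℤ) := by positivity
  have hnn : 0 ≤ 3 * k ^ 2 + ((j : ℕ) : ℤ) * k := by
    rcases le_or_gt 0 k with hk0 | hk0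
    · positivity
    · nlinarith
  apply h (3 * k ^ 2 + ((j : ℕ) : ℤ) * k).toNat
  zify
  rw [Int.toNat_of_nonneg hnn, e1]
  unfold ee
  push_cast
  ring

lemma tht_eq (j : Fin 4) : tht (j : ℕ) = em (ee j) (hh j) := by
  ext n
  unfold em
  rw [coeff_X_pow_mul', coeff_ex]
  by_cases h : ∃ k, n = 24 * k + ee j
  · obtain ⟨k, rfl⟩ := h
    rw [if_pos (by omega), if_pos ⟨k, by omega⟩]
    unfold hh
    rw [coeff_mk]
    congr 1
    congr 1
    congr 1
    omega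
  · push Not at h
    rw [coeff_tht_eq_zero j n h]
    split_ifs with h1 h2
    · obtain ⟨k, hk⟩ := h2
      exact absurd (by omega) (h k)
    · rfl
    · rfl

lemma cc_hh (j : Fin 4) : constantCoeff (hh j) ≠ 0 := by
  rw [← coeff_zero_eq_constantCoeff_apply]
  unfold hh
  rw [coeff_mk]
  unfold tht
  rw [coeff_mk, Nat.cast_ne_zero, ← Nat.pos_iff_ne_zero, Finset.card_pos]
  refine ⟨((j : ℕ) : ℤ), ?_⟩
  rw [Finset.mem_filter, Finset.mem_Icc]
  unfold ee
  push_cast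
  have hj0 : (0 : ℤ) ≤ ((j : ℕ) : ℤ) := by positivity
  refine ⟨⟨by nlinarith, ?_⟩, by simp, by ring⟩
  rcases Nat.eq_zero_or_pos (j : ℕ) with h | h
  · rw [h]; simp
  · have : (1 : ℤ) ≤ ((j : ℕ) : ℤ) := by exact_mod_cast h
    nlinarith

end

end Pool.Agent.V5helper9.FR
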