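import Pool.Agent.R322.QD
import Pool.Agent.R396.QM.QExp
import Pool.Agent.V5helper40.FR.Defs

/-!
# Functions on the upper half plane given by power series in `x = q^{1/24}`
-/

set_option autoImplicit false

open UpperHalfPlane hiding I
open Real Complex Filter Topology Derivative EisensteinSeries ModularForm MatrixGroups Function
open scoped Manifold MatrixGroups ModularForm
open Pool.Agent.R322.QD (th)
open Pool.Agent.V5helper40.FR (subq)

namespace Pool.Agent.V5helper9.FR

noncomputable section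

/-- `x = exp (2 π i τ / 24)` -/
abbrev xp (τ : ℂ) : ℂ := Function.Periodic.qParam 24 τ

/-- `F` has the expansion `p` in `x`. -/
def HX (F : ℍ → ℂ) (p : PowerSeries ℂ) : Prop :=
  ∀ τ : ℍ, HasSum (fun n : ℕ => p.coeff n * xp τ ^ n) (F τ)

lemma norm_xp_lt (τ : ℍ) : ‖xp τ‖ < 1 :=
  Function.Periodic.norm_qParam_lt_one (by norm_num) τ.im_pos

lemma xp_pow (τ : ℂ) : xp τ ^ 24 = Function.Periodic.qParam 1 τ := by
  unfold xp Function.Periodic.qParam
  rw [← Complex.exp_nat_mul]
  congr 1
  push_cast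
  ring

lemma HX.add {F H : ℍ → ℂ} {p r : PowerSeries ℂ} (h1 : HX F p) (h2 : HX H r) : HX (F + H) (p + r) := by
  intro τ
  have := (h1 τ).add (h2 τ)
  simp only [map_add, add_mul]
  exact this

lemma HX.sub {F H : ℍ → ℂ} {p r : PowerSeries ℂ} (h1 : HX F p) (h2 : HX H r) : HX (F - H) (p - r) := by
  intro τ
  have := (h1 τ).sub (h2 τ)
  simp only [map_sub, sub_mul]
  exact this

lemma HX.neg {F : ℍ → ℂ} {p : PowerSeries ℂ} (h1 : HX F p) : HX (-F) (-p) := by
  intro τ
  have := (h1 τ).neg
  simp only [map_neg, neg_mul]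
  exact this

lemma HX.const (c : ℂ) : HX (fun _ => c) (PowerSeries.C c) := by
  intro τ
  have := hasSum_ite_eq (0 : ℕ) c
  convert this using 1
  funext n
  by_cases hn : n = 0
  · simp [hn]
  · simp [hn, PowerSeries.coeff_C]

lemma HX.zero : HX (0 : ℍ → ℂ) 0 := by
  have := HX.const 0
  rw [map_zero] at this
  exact this

lemma HX.one : HX (1 : ℍ → ℂ) 1 := by
  have := HX.const 1
  rw [map_one] at this
  exact this

lemma HX.mul {F H : ℍ → ℂ} {p r : PowerSeries ℂ} (h1 : HX F p) (h2 : HX H r) : HX (F * H) (p * r) := by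
  intro τ
  have s1 := (h1 τ).summable.norm
  have s2 := (h2 τ).summable.norm
  have e := tsum_mul_tsum_eq_tsum_sum_antidiagonal_of_summable_norm s1 s2
  have s3 := (summable_norm_sum_mul_antidiagonal_of_summable_norm s1 s2).of_norm
  rw [(h1 τ).tsum_eq, (h2 τ).tsum_eq] at e
  have h3 := s3.hasSum
  rw [← e] at h3
  have e2 : (fun n : ℕ => (p * r).coeff n * xp τ ^ n) = fun n =>
      ∑ kl ∈ Finset.HasAntidiagonal.antidiagonal n,
        p.coeff kl.1 * xp τ ^ kl.1 * (r.coeff kl.2 * xp τ ^ kl.2) := by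
    funext n
    rw [PowerSeries.coeff_mul, Finset.sum_mul]
    refine Finset.sum_congr rfl fun kl hkl => ?_
    rw [← Finset.HasAntidiagonal.mem_antidiagonal.1 hkl, pow_add]
    ring
  rw [e2]
  exact h3

lemma HX.pow {F : ℍ → ℂ} {p : PowerSeries ℂ} (h1 : HX F p) (n : ℕ) : HX (F ^ n) (p ^ n) := by
  induction n with
  | zero => simpa using HX.one
  | succ n ih => rw [pow_succ, pow_succ]; exact ih.mul h1

lemma HX.sum {ι : Type*} (s : Finset ι) {F : ι → ℍ → ℂ} {p : ι → PowerSeries ℂ}
    (h : ∀ i ∈ s, HX (F i) (p i)) : HX (∑ i ∈ s, F i) (∑ i ∈ s, p i) := by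
  classical
  induction s using Finset.induction_on with
  | empty => simpa using HX.zero
  | insert a s ha ih =>
    rw [Finset.sum_insert ha, Finset.sum_insert ha]
    exact (h a (Finset.mem_insert_self a s)).add (ih fun i hi => h i (Finset.mem_insert_of_mem hi))

lemma HX.prod {ι : Type*} (s : Finset ι) {F : ι → ℍ → ℂ} {p : ι → PowerSeries ℂ}
    (h : ∀ i ∈ s, HX (F i) (p i)) : HX (∏ i ∈ s, F i) (∏ i ∈ s, p i) := by
  classical
  induction s using Finset.induction_on with
  | empty => simpa using HX.one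
  | insert a s ha ih =>
    rw [Finset.prod_insert ha, Finset.prod_insert ha]
    exact (h a (Finset.mem_insert_self a s)).mul (ih fun i hi => h i (Finset.mem_insert_of_mem hi))

lemma HX.smul {F : ℍ → ℂ} {p : PowerSeries ℂ} (h1 : HX F p) (c : ℂ) : HX (c • F) (c • p) := by
  intro τ
  have := (h1 τ).mul_left c
  simp only [PowerSeries.coeff_smul, smul_eq_mul, mul_assoc]
  exact this

/-- determinants -/
lemma HX.det {n : ℕ} {M : Matrix (Fin n) (Fin n) (ℍ → ℂ)} {P : Matrix (Fin n) (Fin n) (PowerSeries ℂ)}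
    (h : ∀ i j, HX (M i j) (P i j)) : HX M.det P.det := by
  rw [Matrix.det_apply, Matrix.det_apply]
  refine HX.sum _ fun σ _ => ?_
  have h1 := HX.prod Finset.univ (F := fun i => M (σ i) i) (p := fun i => P (σ i) i)
    (fun i _ => h _ _)
  rcases Int.units_eq_one_or (Equiv.Perm.sign σ) with hs | hs
  · rw [hs, one_smul, one_smul]; exact h1
  · rw [hs]
    simp only [Units.neg_smul, one_smul]
    exact h1.neg

lemma HX.form {F : ℍ → ℂ} {p : PowerSeries ℂ} (h : HX F p) (τ : ℍ) :
    HasSum (fun m : ℕ => p.coeff m • Function.Periodic.qParam 24 τ ^ m) (F τ) := by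
  simpa [smul_eq_mul] using h τ

lemma HX.bdd {F : ℍ → ℂ} {p : PowerSeries ℂ} (h : HX F p) : IsBoundedAtImInfty F :=
  isBoundedAtImInfty_of_hasSum_qExpansion (by norm_num) h.form

lemma HX.summable {F : ℍ → ℂ} {p : PowerSeries ℂ} (h : HX F p) {r : ℝ} (h0 : 0 ≤ r) (h1 : r < 1) :
    Summable fun m => ‖p.coeff m‖ * r ^ m := by
  rcases h0.eq_or_lt with rfl | h0
  · refine summable_of_ne_finset_zero (s := {0}) fun m hm => ?_
    simp at hm
    simp [hm]
  · have h24 : (0 : ℝ) < 24 := by norm_num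
    have him : 0 < (Function.Periodic.invQParam 24 (r : ℂ)).im :=
      Function.Periodic.im_invQParam_pos_of_norm_lt_one h24 (by
        rw [Complex.norm_real, Real.norm_eq_abs, abs_of_pos h0]; exact h1)
        (by exact_mod_cast h0.ne')
    have := (h ⟨_, him⟩).summable.norm
    refine this.congr fun m => ?_
    rw [norm_mul, norm_pow]
    congr 2
    show ‖Function.Periodic.qParam 24 (Function.Periodic.invQParam 24 (r : ℂ))‖ = r
    rw [Function.Periodic.qParam_right_inv h24.ne' (by exact_mod_cast h0.ne'),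
      Complex.norm_real, Real.norm_eq_abs, abs_of_pos h0]

theorem HX.mdiff {F : ℍ → ℂ} {p : PowerSeries ℂ} (h : HX F p) : MDiff F := by
  have hd : DifferentiableOn ℂ (fun s : ℂ => ∑' m : ℕ, p.coeff m * s ^ m) (Metric.ball 0 1) := by
    intro s hs
    rw [Metric.mem_ball, dist_zero_right] at hs
    obtain ⟨r, hr1, hr2⟩ := exists_between hs
    have hr0 : 0 ≤ r := (norm_nonneg _).trans hr1.le
    have hd : DifferentiableOn ℂ (fun s => ∑' i : ℕ, p.coeff i * s ^ i) (Metric.ball 0 r) := by
      refine differentiableOn_tsum_of_summable_norm (h.summable hr0 hr2)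
        (fun i => by fun_prop) Metric.isOpen_ball fun i w hw => ?_
      rw [norm_mul, norm_pow]
      rw [Metric.mem_ball, dist_zero_right] at hw
      exact mul_le_mul_of_nonneg_left (pow_le_pow_left₀ (norm_nonneg _) hw.le _) (norm_nonneg _)
    have hmem : s ∈ Metric.ball (0 : ℂ) r := by
      rw [Metric.mem_ball, dist_zero_right]; exact hr1
    exact (hd.differentiableAt (Metric.isOpen_ball.mem_nhds hmem)).differentiableWithinAt
  rw [UpperHalfPlane.mdifferentiable_iff]
  have h2 : DifferentiableOn ℂ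
      ((fun s : ℂ => ∑' m : ℕ, p.coeff m * s ^ m) ∘ fun z : ℂ => Function.Periodic.qParam 24 z)
      {z | 0 < z.im} := by
    refine hd.comp ?_ ?_
    · unfold Function.Periodic.qParam
      fun_prop
    · intro z hz
      rw [Metric.mem_ball, dist_zero_right]
      exact Function.Periodic.norm_qParam_lt_one (by norm_num) hz
  refine h2.congr fun z hz => ?_
  have hz' : 0 < z.im := hz
  simp only [Function.comp_apply]
  rw [ofComplex_apply_of_im_pos hz']
  exact ((h ⟨z, hz'⟩).tsum_eq).symm

theorem x_add (w : ℂ) : Function.Periodic.qParam 24 (w + 24) = Function.Periodic.qParam 24 w := by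
  unfold Function.Periodic.qParam
  have : 2 * (π : ℂ) * Complex.I * (w + 24) / ((24 : ℝ) : ℂ) =
      2 * (π : ℂ) * Complex.I * w / ((24 : ℝ) : ℂ) + 2 * (π : ℂ) * Complex.I := by
    push_cast
    ring
  rw [this, Complex.exp_add, Complex.exp_two_pi_mul_I, mul_one]

theorem HX.per {F : ℍ → ℂ} {p : PowerSeries ℂ} (h : HX F p) :
    Function.Periodic (F ∘ ofComplex) ((24 : ℝ) : ℂ) := by
  intro w
  by_cases hw : 0 < w.im
  · have hw' : 0 < (w + ((24 : ℝ) : ℂ)).im := by simpa using hw
    simp only [Function.comp_apply]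
    rw [ofComplex_apply_of_im_pos hw, ofComplex_apply_of_im_pos hw']
    refine (h ⟨_, hw'⟩).unique ?_
    have h1 := h ⟨_, hw⟩
    have e : Function.Periodic.qParam 24 (w + ((24 : ℝ) : ℂ)) = Function.Periodic.qParam 24 w := by
      have h24 : ((24 : ℝ) : ℂ) = 24 := by norm_num
      rw [h24]
      exact x_add w
    show HasSum (fun m => p.coeff m * Function.Periodic.qParam 24 (w + ((24 : ℝ) : ℂ)) ^ m) _
    rw [e]
    exact h1
  · have hw' : ¬ 0 < (w + ((24 : ℝ) : ℂ)).im := by simpa using hw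
    simp only [Function.comp_apply]
    rw [ofComplex_apply_of_im_nonpos (not_lt.1 hw), ofComplex_apply_of_im_nonpos (not_lt.1 hw')]

theorem HX.analytic {F : ℍ → ℂ} {p : PowerSeries ℂ} (h : HX F p) :
    AnalyticAt ℂ (cuspFunction 24 F) 0 :=
  analyticAt_cuspFunction_zero (by norm_num) h.per h.mdiff h.bdd

theorem HX.eq {F : ℍ → ℂ} {p : PowerSeries ℂ} (h : HX F p) : qExpansion 24 F = p := by
  have h1 := (UpperHalfPlane.hasFPowerSeriesOnBall_cuspFunction (by norm_num : (0 : ℝ) < 24)
    h.analytic h.form).hasFPowerSeriesAt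
  have h2 := h1.eq_formalMultilinearSeries h.analytic.hasFPowerSeriesAt
  ext m
  have h3 := congr_arg (FormalMultilinearSeries.coeff · m) h2
  simp only [FormalMultilinearSeries.coeff_ofScalars] at h3
  rw [UpperHalfPlane.qExpansion_coeff, h3]
  ring

theorem HX.unique {F : ℍ → ℂ} {p r : PowerSeries ℂ} (h : HX F p) (h' : HX F r) : p = r := by
  rw [← h.eq, ← h'.eq]

/-- the derivative -/
theorem HX.D {F : ℍ → ℂ} {p : PowerSeries ℂ} (h : HX F p) :
    HX (fun τ => 24 * normalizedDerivOfComplex F τ) (th p) := by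
  intro τ
  have h24 : (0 : ℝ) < 24 := by norm_num
  set Φ := cuspFunction 24 F with hF
  have hFd : DifferentiableOn ℂ Φ (Metric.ball 0 1) :=
    differentiableOn_cuspFunction_ball h24 h.per h.mdiff h.bdd
  have hFd' : DifferentiableOn ℂ (deriv Φ) (Metric.ball 0 1) := hFd.deriv Metric.isOpen_ball
  have hq : ‖Function.Periodic.qParam 24 τ‖ < 1 := Function.Periodic.norm_qParam_lt_one h24 τ.im_pos
  have hqmem : Function.Periodic.qParam 24 τ ∈ Metric.ball (0 : ℂ) 1 := by simpa using hq
  have hs := hasSum_taylorSeries_on_ball hFd' hqmem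
  -- the derivative
  have hD : 24 * normalizedDerivOfComplex F τ =
      Function.Periodic.qParam 24 τ * deriv Φ (Function.Periodic.qParam 24 τ) := by
    have hev : (F ∘ ofComplex) =ᶠ[𝓝 (τ : ℂ)] fun w => Φ (Function.Periodic.qParam 24 w) := by
      filter_upwards [isOpen_upperHalfPlaneSet.mem_nhds τ.2] with w hw
      have := UpperHalfPlane.eq_cuspFunction (⟨w, hw⟩ : ℍ) h24.ne' h.per
      rw [hF]
      rw [show Function.Periodic.qParam 24 w = Function.Periodic.qParam 24 ((⟨w, hw⟩ : ℍ) : ℂ) from rfl,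
        this, Function.comp_apply, ofComplex_apply_of_im_pos hw]
    have hFat : DifferentiableAt ℂ Φ (Function.Periodic.qParam 24 τ) :=
      hFd.differentiableAt (Metric.isOpen_ball.mem_nhds hqmem)
    have hqd : HasDerivAt (fun w : ℂ => Function.Periodic.qParam 24 w)
        (2 * π * I / 24 * Function.Periodic.qParam 24 τ) (τ : ℂ) := by
      have h1 : HasDerivAt (fun w : ℂ => 2 * π * I * w / (24 : ℝ)) (2 * π * I * 1 / (24 : ℝ)) (τ : ℂ) :=
        ((hasDerivAt_id (τ : ℂ)).const_mul (2 * π * I)).div_const _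
      have h2 := h1.cexp
      have h3 : (2 * π * I / 24 * Function.Periodic.qParam 24 τ : ℂ) =
          Complex.exp (2 * π * I * τ / (24 : ℝ)) * (2 * π * I * 1 / (24 : ℝ)) := by
        simp only [Function.Periodic.qParam]
        push_cast; ring
      rw [h3]
      exact h2
    have hcomp := hFat.hasDerivAt.comp (τ : ℂ) hqd
    rw [normalizedDerivOfComplex, hev.deriv_eq]
    rw [show deriv (fun w => Φ (Function.Periodic.qParam 24 w)) (τ : ℂ) =
      deriv Φ (Function.Periodic.qParam 24 τ) * (2 * π * I / 24 * Function.Periodic.qParam 24 τ) from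
        hcomp.deriv]
    have hpi : (2 * π * I : ℂ) ≠ 0 := Complex.two_pi_I_ne_zero
    field_simp
  show HasSum _ (24 * normalizedDerivOfComplex F τ)
  rw [hD]
  rw [← hasSum_nat_add_iff' 1]
  have hmul := hs.mul_left (Function.Periodic.qParam 24 τ)
  simp only [Finset.range_one, Finset.sum_singleton, Pool.Agent.R322.QD.coeff_th, Nat.cast_zero,
    zero_mul, sub_zero]
  convert! hmul using 1
  funext n
  rw [← h.eq, qExpansion_coeff, iteratedDeriv_succ', Nat.factorial_succ]
  simp only [smul_eq_mul, sub_zero]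
  have h1 : ((n : ℂ) + 1) ≠ 0 := by exact_mod_cast Nat.succ_ne_zero n
  have h2 : ((n.factorial : ℕ) : ℂ) ≠ 0 := by exact_mod_cast n.factorial_ne_zero
  push_cast
  field_simp
  rw [hF]
  ring

lemma coeff_subq_mul {m : ℕ} (hm : 0 < m) (p : PowerSeries ℂ) (n : ℕ) :
    (subq m p).coeff (m * n) = p.coeff n := by
  unfold subq
  rw [PowerSeries.coeff_mk, if_pos (dvd_mul_right m n), Nat.mul_div_cancel_left n hm]

lemma coeff_subq_of_not_dvd {m : ℕ} (p : PowerSeries ℂ) {n : ℕ} (h : ¬ m ∣ n) :
    (subq m p).coeff n = 0 := by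
  unfold subq
  rw [PowerSeries.coeff_mk, if_neg h]

/-- passing from `q` to `x` -/
lemma hasSum_subq_iff (p : PowerSeries ℂ) (τ : ℍ) (a : ℂ) :
    HasSum (fun n : ℕ => (subq 24 p).coeff n * xp τ ^ n) a ↔
      HasSum (fun n : ℕ => p.coeff n * Function.Periodic.qParam 1 τ ^ n) a := by
  have hinj : Function.Injective (fun n : ℕ => 24 * n) := fun a b h => by
    simp only at h; omega
  rw [← hinj.hasSum_iff]
  · refine iff_of_eq ?_
    congr 1
    funext n
    simp only [Function.comp_apply]
    rw [coeff_subq_mul (by norm_num), pow_mul, xp_pow]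
  · intro n hn
    rw [coeff_subq_of_not_dvd, zero_mul]
    intro ⟨k, hk⟩
    exact hn ⟨k, hk.symm⟩

end

end Pool.Agent.V5helper9.FR
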