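import Pool.Agent.V5helper9.FR.PS

/-!
# The theta functions
-/

set_option autoImplicit false

open UpperHalfPlane hiding I
open Real Complex Filter Topology Derivative EisensteinSeries ModularForm MatrixGroups Function
open scoped Manifold MatrixGroups ModularForm
open Pool.Agent.R322.QD (th)
open Pool.Agent.V5helper40.FR (subq tht)

namespace Pool.Agent.V5helper9.FR

noncomputable section

/-- the exponent `2 r²` -/
def e2r (r : ℤ) : ℕ := 2 * r.natAbs ^ 2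

lemma summable_theta (w : ℤ → ℂ) (hw : ∀ r, ‖w r‖ ≤ 1) (τ : ℍ) :
    Summable fun r : ℤ => w r * xp τ ^ e2r r := by
  have hx := norm_xp_lt τ
  have hs : Summable fun r : ℤ => ‖xp τ‖ ^ r.natAbs := by
    apply Summable.of_nat_of_neg
    · simpa using summable_geometric_of_lt_one (norm_nonneg _) hx
    · simpa using summable_geometric_of_lt_one (norm_nonneg _) hx
  refine Summable.of_norm_bounded hs fun r => ?_
  rw [norm_mul, norm_pow]
  calc ‖w r‖ * ‖xp τ‖ ^ e2r r ≤ 1 * ‖xp τ‖ ^ e2r r := by gcongr; exact hw r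
    _ = ‖xp τ‖ ^ e2r r := one_mul _
    _ ≤ ‖xp τ‖ ^ r.natAbs := by
      apply pow_le_pow_of_le_one (norm_nonneg _) hx.le
      unfold e2r
      nlinarith [Nat.le_self_pow (two_ne_zero) r.natAbs, Nat.zero_le (r.natAbs ^ 2)]

/-- the indicator function of `d ∣ r - j` -/
def ind (d j r : ℤ) : ℂ := if d ∣ r - j then 1 else 0

lemma norm_ind_le (d j r : ℤ) : ‖ind d j r‖ ≤ 1 := by
  unfold ind; split_ifs <;> simp

/-- `∑_{r ≡ j (mod d)} x^{2r²}` -/
def tf (d j : ℤ) (τ : ℍ) : ℂ := ∑' r : ℤ, ind d j r * xp τ ^ e2r r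

lemma hasSum_tf (d j : ℤ) (τ : ℍ) : HasSum (fun r : ℤ => ind d j r * xp τ ^ e2r r) (tf d j τ) :=
  (summable_theta _ (norm_ind_le d j) τ).hasSum

lemma HX_tf (j : ℤ) : HX (tf 6 j) (tht j) := by
  intro τ
  have h1 := (hasSum_tf 6 j τ).tsum_fiberwise e2r
  have e : (fun n : ℕ => (tht j).coeff n * xp τ ^ n) = fun n : ℕ =>
      ∑' b : e2r ⁻¹' {n}, ind 6 j (b : ℤ) * xp τ ^ e2r (b : ℤ) := by
    funext n
    have hset : e2r ⁻¹' {n} = (((Finset.Icc (-(n : ℤ)) (n : ℤ)).filter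
        (fun r : ℤ => 2 * r ^ 2 = (n : ℤ)) : Finset ℤ) : Set ℤ) := by
      ext r
      simp only [Set.mem_preimage, Set.mem_singleton_iff, Finset.mem_coe, Finset.mem_filter, Finset.mem_Icc]
      unfold e2r
      constructor
      · intro h
        have h2 : 2 * r ^ 2 = (n : ℤ) := by
          rw [← h]; push_cast; rw [sq_abs]
        refine ⟨⟨?_, ?_⟩, h2⟩ <;> nlinarith [sq_nonneg (r - 1), sq_nonneg (r + 1), sq_nonneg r]
      · rintro ⟨-, h⟩
        have : ((2 * r.natAbs ^ 2 : ℕ) : ℤ) = n := by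
          push_cast; rw [sq_abs]; exact h
        exact_mod_cast this
    rw [tsum_congr_set_coe (fun b : ℤ => ind 6 j b * xp τ ^ e2r b) hset]
    rw [Finset.tsum_subtype' _ (fun b : ℤ => ind 6 j b * xp τ ^ e2r b)]
    have e3 : ∀ r ∈ (Finset.Icc (-(n : ℤ)) (n : ℤ)).filter (fun r : ℤ => 2 * r ^ 2 = (n : ℤ)),
        ind 6 j r * xp τ ^ e2r r = ind 6 j r * xp τ ^ n := by
      intro r hr
      have h4 : r ∈ e2r ⁻¹' {n} := by rw [hset]; exact Finset.mem_coe.2 hr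
      have h5 : e2r r = n := h4
      rw [h5]
    rw [Finset.sum_congr rfl e3, ← Finset.sum_mul]
    congr 1
    unfold ind tht
    rw [PowerSeries.coeff_mk, Finset.sum_boole, Finset.filter_filter]
    congr 2
    ext r
    simp only [Finset.mem_filter]
    tauto
  rw [e]
  exact h1

lemma tf_neg (d j : ℤ) (τ : ℍ) : tf d (-j) τ = tf d j τ := by
  have h1 := (Equiv.neg ℤ).hasSum_iff.2 (hasSum_tf d (-j) τ)
  refine h1.unique ?_
  convert! hasSum_tf d j τ using 1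
  funext r
  simp only [Function.comp_apply, Equiv.neg_apply]
  have e1 : e2r (-r) = e2r r := by unfold e2r; rw [Int.natAbs_neg]
  have e2 : ind d (-j) (-r) = ind d j r := by
    unfold ind
    have : d ∣ -r - -j ↔ d ∣ r - j := by
      rw [← Int.dvd_neg]
      ring_nf
    simp only [this]
  rw [e1, e2]

lemma tf3 (τ : ℍ) : tf 3 0 τ = tf 6 0 τ + tf 6 3 τ := by
  refine (hasSum_tf 3 0 τ).unique ?_
  convert! (hasSum_tf 6 0 τ).add (hasSum_tf 6 3 τ) using 1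
  funext r
  rw [← add_mul]
  congr 1
  unfold ind
  split_ifs <;> first | omega | norm_num

lemma tf2 (τ : ℍ) : tf 2 0 τ = tf 6 0 τ + 2 * tf 6 2 τ := by
  have h : tf 2 0 τ = tf 6 0 τ + tf 6 2 τ + tf 6 (-2) τ := by
    refine (hasSum_tf 2 0 τ).unique ?_
    convert! ((hasSum_tf 6 0 τ).add (hasSum_tf 6 2 τ)).add (hasSum_tf 6 (-2) τ) using 1
    funext r
    rw [← add_mul, ← add_mul]
    congr 1
    unfold ind
    split_ifs <;> first | omega | norm_num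
  rw [h, tf_neg]
  ring

lemma tf1 (τ : ℍ) : tf 1 0 τ = tf 6 0 τ + 2 * tf 6 1 τ + 2 * tf 6 2 τ + tf 6 3 τ := by
  have h : tf 1 0 τ = tf 6 0 τ + tf 6 1 τ + tf 6 (-1) τ + tf 6 2 τ + tf 6 (-2) τ + tf 6 3 τ := by
    refine (hasSum_tf 1 0 τ).unique ?_
    convert! (((((hasSum_tf 6 0 τ).add (hasSum_tf 6 1 τ)).add (hasSum_tf 6 (-1) τ)).add
      (hasSum_tf 6 2 τ)).add (hasSum_tf 6 (-2) τ)).add (hasSum_tf 6 3 τ) using 1
    funext r
    simp only [← add_mul]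
    congr 1
    unfold ind
    split_ifs <;> first | omega | norm_num
  rw [h, tf_neg, tf_neg]
  ring

lemma tf_eq (d : ℤ) (hd : d ≠ 0) (τ : ℍ) : tf d 0 τ = jacobiTheta ((d : ℂ) ^ 2 * τ / 6) := by
  have hinj : Function.Injective (fun s : ℤ => d * s) := fun a b h => mul_left_cancel₀ hd h
  have h1 := hasSum_tf d 0 τ
  rw [← hinj.hasSum_iff] at h1
  · rw [← h1.tsum_eq]
    unfold jacobiTheta
    refine tsum_congr fun s => ?_
    simp only [Function.comp_apply]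
    have e1 : ind d 0 (d * s) = 1 := by
      unfold ind
      rw [if_pos ⟨s, by ring⟩]
    rw [e1, one_mul]
    unfold xp Function.Periodic.qParam
    rw [← Complex.exp_nat_mul]
    congr 1
    have e2 : ((e2r (d * s) : ℕ) : ℂ) = 2 * ((d : ℂ) * s) ^ 2 := by
      have : ((e2r (d * s) : ℕ) : ℤ) = 2 * (d * s) ^ 2 := by
        unfold e2r
        push_cast
        rw [sq_abs]
      exact_mod_cast this
    rw [e2]
    push_cast
    ring
  · intro r hr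
    unfold ind
    rw [if_neg, zero_mul]
    rintro ⟨k, hk⟩
    exact hr ⟨k, by simp only; linarith⟩

/-- the automorphy factor -/
def c0 (τ : ℍ) : ℂ := (-Complex.I * τ) ^ (1 / 2 : ℂ) / (Real.sqrt 6 : ℝ)

lemma jt_S (z w : ℍ) (h : (z : ℂ) * w = -1) : jacobiTheta z = (-Complex.I * w) ^ (1 / 2 : ℂ) * jacobiTheta w := by
  have := jacobiTheta_S_smul w
  rw [UpperHalfPlane.modular_S_smul] at this
  rw [← this]
  congr 1
  show (z : ℂ) = (-(w : ℂ))⁻¹
  have hw : (w : ℂ) ≠ 0 := w.ne_zero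
  field_simp
  linear_combination h

lemma S_mul (τ : ℍ) : ((ModularGroup.S • τ : ℍ) : ℂ) * τ = -1 := by
  rw [UpperHalfPlane.modular_S_smul]
  show (-(τ : ℂ))⁻¹ * τ = -1
  have hw : (τ : ℂ) ≠ 0 := τ.ne_zero
  field_simp

lemma cpow_half_mul (r : ℝ) (hr : 0 < r) (x : ℂ) (hx : x ≠ 0) :
    ((r ^ 2 : ℝ) * x) ^ (1 / 2 : ℂ) = r * x ^ (1 / 2 : ℂ) := by
  have h2 : (0 : ℝ) < r ^ 2 := by positivity
  have h1 : ((r ^ 2 : ℝ) : ℂ) * x ≠ 0 := mul_ne_zero (by exact_mod_cast h2.ne') hx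
  rw [Complex.cpow_def_of_ne_zero h1, Complex.cpow_def_of_ne_zero hx, Complex.log_ofReal_mul h2 hx,
    add_mul, Complex.exp_add]
  congr 1
  rw [Real.log_pow]
  have : ((((2 : ℕ) : ℝ) * Real.log r : ℝ) : ℂ) * (1 / 2) = ((Real.log r : ℝ) : ℂ) := by
    push_cast; ring
  rw [this, ← Complex.ofReal_exp, Real.exp_log hr]

lemma tf_S (d e : ℤ) (hd : 0 < d) (he : 0 < e) (hde : d * e = 6) (τ : ℍ) :
    tf d 0 (ModularGroup.S • τ) = e * c0 τ * tf e 0 τ := by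
  rw [tf_eq d hd.ne', tf_eq e he.ne']
  have him : 0 < τ.im := τ.im_pos
  have hd' : (0 : ℝ) < d := by exact_mod_cast hd
  have he' : (0 : ℝ) < e := by exact_mod_cast he
  have hdeC : (d : ℂ) * e = 6 := by exact_mod_cast hde
  have hz : 0 < ((d : ℂ) ^ 2 * ((ModularGroup.S • τ : ℍ) : ℂ) / 6).im := by
    have h1 : ((d : ℂ) ^ 2 * ((ModularGroup.S • τ : ℍ) : ℂ) / 6) =
      (((d : ℝ) ^ 2 / 6 : ℝ) : ℂ) * ((ModularGroup.S • τ : ℍ) : ℂ) := by push_cast; ring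
    rw [h1, Complex.im_ofReal_mul]
    exact mul_pos (by positivity) (ModularGroup.S • τ : ℍ).im_pos
  have hw : 0 < ((e : ℂ) ^ 2 * (τ : ℂ) / 6).im := by
    have h1 : ((e : ℂ) ^ 2 * (τ : ℂ) / 6) = (((e : ℝ) ^ 2 / 6 : ℝ) : ℂ) * (τ : ℂ) := by push_cast; ring
    rw [h1, Complex.im_ofReal_mul]
    exact mul_pos (by positivity) τ.im_pos
  have h := jt_S ⟨_, hz⟩ ⟨_, hw⟩ (by
    show ((d : ℂ) ^ 2 * ((ModularGroup.S • τ : ℍ) : ℂ) / 6) * ((e : ℂ) ^ 2 * (τ : ℂ) / 6) = -1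
    have h1 : ((d : ℂ) ^ 2 * ((ModularGroup.S • τ : ℍ) : ℂ) / 6) * ((e : ℂ) ^ 2 * (τ : ℂ) / 6) =
      (d * e : ℂ) ^ 2 / 36 * (((ModularGroup.S • τ : ℍ) : ℂ) * τ) := by ring
    rw [h1, hdeC, S_mul]
    norm_num)
  have h' : jacobiTheta ((d : ℂ) ^ 2 * ((ModularGroup.S • τ : ℍ) : ℂ) / 6) =
    (-Complex.I * ((e : ℂ) ^ 2 * (τ : ℂ) / 6)) ^ (1 / 2 : ℂ) * jacobiTheta ((e : ℂ) ^ 2 * (τ : ℂ) / 6) := h
  rw [h']
  congr 1
  have h6 : (0 : ℝ) < Real.sqrt 6 := Real.sqrt_pos.2 (by norm_num)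
  have e1 : (-Complex.I * ((e : ℂ) ^ 2 * (τ : ℂ) / 6)) =
      ((((e : ℝ) / Real.sqrt 6) ^ 2 : ℝ) : ℂ) * (-Complex.I * τ) := by
    rw [div_pow, Real.sq_sqrt (by norm_num : (0 : ℝ) ≤ 6)]
    push_cast
    ring
  rw [e1, cpow_half_mul _ (by positivity) _
    (mul_ne_zero (neg_ne_zero.2 Complex.I_ne_zero) τ.ne_zero)]
  unfold c0
  push_cast
  ring

/-- the theta functions -/
def tj (j : Fin 4) : ℍ → ℂ := tf 6 (j : ℕ)

/-- the matrix of the transformation -/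
def MM : Matrix (Fin 4) (Fin 4) ℂ :=
  !![1, 2, 2, 1; 1, 1, -1, -1; 1, -1, -1, 1; 1, -2, 2, -1]

lemma tj_S (j : Fin 4) (τ : ℍ) : tj j (ModularGroup.S • τ) = c0 τ * ∑ l, MM j l * tj l τ := by
  have a1 := tf_S 6 1 (by norm_num) (by norm_num) (by norm_num) τ
  have a2 := tf_S 3 2 (by norm_num) (by norm_num) (by norm_num) τ
  have a3 := tf_S 2 3 (by norm_num) (by norm_num) (by norm_num) τ
  have a4 := tf_S 1 6 (by norm_num) (by norm_num) (by norm_num) τ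
  have b1 := tf1 τ
  have b2 := tf2 τ
  have b3 := tf3 τ
  have d1 := tf1 (ModularGroup.S • τ)
  have d2 := tf2 (ModularGroup.S • τ)
  have d3 := tf3 (ModularGroup.S • τ)
  rw [Fin.sum_univ_four]
  simp only [tj, Fin.val_zero, Fin.val_one, Fin.val_two, Nat.cast_zero, Nat.cast_one, Nat.cast_ofNat,
    show ((3 : Fin 4) : ℕ) = 3 from rfl]
  rw [b1] at a1
  rw [b2] at a2
  rw [b3] at a3
  push_cast at a1 a2 a3 a4
  generalize ModularGroup.S • τ = s at *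
  fin_cases j
  · simp [MM]
    rw [a1]; ring
  · simp [MM]
    linear_combination (-1/2) * d1 + (1/2) * d2 + (1/2) * d3 + (1/2) * a4 - (1/2) * a3 - (1/2) * a2 + (1/2) * a1
  · simp [MM]
    linear_combination (-1/2) * d2 + (1/2) * a3 - (1/2) * a1
  · simp [MM]
    linear_combination -d3 + a2 - a1

end

end Pool.Agent.V5helper9.FR
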