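import Pool.Agent.V5helper9.FR.TH

/-!
# The transformation behaviour
-/

set_option autoImplicit false

open UpperHalfPlane hiding I
open Real Complex Filter Topology Derivative EisensteinSeries ModularForm MatrixGroups Function
open scoped Manifold MatrixGroups ModularForm
open Pool.Agent.R322.QD (th e2 e4 e6 good_E2 good_E4 good_E6 Good)
open Pool.Agent.V5helper40.FR (subq tht)

namespace Pool.Agent.V5helper9.FR

noncomputable section

lemma HX_of_good {F : ℍ → ℂ} (h : Good F) : HX F (ex (qExpansion 1 F)) := by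
  intro τ
  rw [← subq_eq, hasSum_subq_iff]
  have := UpperHalfPlane.hasSum_qExpansion one_pos h.per h.hol h.bdd τ
  simpa [smul_eq_mul] using this

lemma HX_E2 : HX E2 (ex e2) := HX_of_good good_E2
lemma HX_E4 : HX (E₄ : ℍ → ℂ) (ex e4) := HX_of_good good_E4
lemma HX_E6 : HX (E₆ : ℍ → ℂ) (ex e6) := HX_of_good good_E6

/-- `24 D F - k E₂ F` -/
def FD (k : ℂ) (F : ℍ → ℂ) : ℍ → ℂ := fun τ => 24 * normalizedDerivOfComplex F τ - k * (E2 τ * F τ)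

lemma HX.FD {F : ℍ → ℂ} {p : PowerSeries ℂ} (h : HX F p) (k : ℂ) : HX (FD k F) (DPL k p) := by
  have h1 := h.D.sub ((HX.const k).mul (HX_E2.mul h))
  rw [DPL_apply]
  unfold Pool.Agent.V5helper40.FR.DP
  rw [subq_eq]
  exact h1

/-- the five operators -/
def vF : Fin 5 → (ℍ → ℂ) → (ℍ → ℂ)
  | 0 => fun F => F
  | 1 => fun F => FD 1 F
  | 2 => fun F => FD 5 (FD 1 F)
  | 3 => fun F => FD 9 (FD 5 (FD 1 F))
  | 4 => fun F => FD 13 (FD 9 (FD 5 (FD 1 F)))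
      - ((58 : ℍ → ℂ) * E₄ * FD 5 (FD 1 F) - (176 : ℍ → ℂ) * E₆ * FD 1 F + (119 : ℍ → ℂ) * (E₄ : ℍ → ℂ) ^ 2 * F)

lemma HX_ofNat (n : ℕ) [n.AtLeastTwo] : HX (OfNat.ofNat n : ℍ → ℂ) (OfNat.ofNat n) := by
  have := HX.const (OfNat.ofNat n)
  rw [map_ofNat] at this
  exact this

lemma HX.vF {F : ℍ → ℂ} {p : PowerSeries ℂ} (h : HX F p) (i : Fin 5) : HX (vF i F) (vP i p) := by
  fin_cases i
  · exact h
  · exact h.FD 1
  · exact (h.FD 1).FD 5
  · exact ((h.FD 1).FD 5).FD 9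
  · have h4 := (((h.FD 1).FD 5).FD 9).FD 13
    exact h4.sub (((((HX_ofNat 58).mul HX_E4).mul ((h.FD 1).FD 5)).sub
      (((HX_ofNat 176).mul HX_E6).mul (h.FD 1))).add (((HX_ofNat 119).mul (HX_E4.pow 2)).mul h))

lemma HX.fun_unique {F H : ℍ → ℂ} {p : PowerSeries ℂ} (h : HX F p) (h' : HX H p) : F = H := by
  funext τ
  exact (h τ).unique (h' τ)

/-- linearity -/
lemma vF_sum {F : Fin 4 → ℍ → ℂ} {p : Fin 4 → PowerSeries ℂ} (h : ∀ l, HX (F l) (p l)) (a : Fin 4 → ℂ)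
    (i : Fin 5) : vF i (∑ l, a l • F l) = ∑ l, a l • vF i (F l) := by
  have h1 : HX (∑ l, a l • F l) (∑ l, a l • p l) := HX.sum _ fun l _ => (h l).smul (a l)
  have h2 := h1.vF i
  rw [map_sum] at h2
  simp only [map_smul] at h2
  have h3 : HX (∑ l, a l • vF i (F l)) (∑ l, a l • vP i (p l)) :=
    HX.sum _ fun l _ => ((h l).vF i).smul (a l)
  exact h2.fun_unique h3

/-! ### The action of `S` -/

/-- the automorphy factors -/
def cn (n : ℕ) (τ : ℍ) : ℂ := c0 τ * (τ : ℂ) ^ (2 * n)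

lemma hasDerivAt_cn (n : ℕ) (τ : ℍ) :
    HasDerivAt (cn n ∘ ofComplex) (cn n τ * ((1 / 2 + 2 * n) / τ)) (τ : ℂ) := by
  have h1 : HasDerivAt (fun z : ℂ => (-Complex.I * z) ^ (1 / 2 : ℂ) / (Real.sqrt 6 : ℝ) * z ^ (2 * n))
      (cn n τ * ((1 / 2 + 2 * n) / τ)) (τ : ℂ) := by
    have hs : (-Complex.I * (τ : ℂ)) ∈ Complex.slitPlane := by
      left
      simpa using τ.im_pos
    have ha : HasDerivAt (fun z : ℂ => -Complex.I * z) (-Complex.I) (τ : ℂ) := by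
      simpa using (hasDerivAt_id (τ : ℂ)).const_mul (-Complex.I)
    have hb := ((ha.cpow_const (c := (1 / 2 : ℂ)) hs).div_const ((Real.sqrt 6 : ℝ) : ℂ)).mul
      (hasDerivAt_pow (2 * n) (τ : ℂ))
    convert! hb using 1
    unfold cn c0
    have hτ : (τ : ℂ) ≠ 0 := τ.ne_zero
    have hI : (-Complex.I * (τ : ℂ)) ≠ 0 := mul_ne_zero (neg_ne_zero.2 Complex.I_ne_zero) hτ
    have e1 : (-Complex.I * (τ : ℂ)) ^ (1 / 2 - 1 : ℂ) = (-Complex.I * (τ : ℂ)) ^ (1 / 2 : ℂ) / (-Complex.I * (τ : ℂ)) := by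
      rw [Complex.cpow_sub _ _ hI, Complex.cpow_one]
    rw [e1]
    rcases Nat.eq_zero_or_pos n with rfl | hn
    · simp
      field_simp
    · have e2 : (τ : ℂ) ^ (2 * n) = (τ : ℂ) ^ (2 * n - 1) * τ := by
        rw [← pow_succ]; congr 1; omega
      rw [e2]
      field_simp
      push_cast
      ring
  refine h1.congr_of_eventuallyEq ?_
  filter_upwards [isOpen_upperHalfPlaneSet.mem_nhds τ.2] with w hw
  simp only [Function.comp_apply, cn, c0]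
  rw [ofComplex_apply_of_im_pos hw]

lemma mdiff_cn (n : ℕ) : MDiff (cn n) := by
  rw [UpperHalfPlane.mdifferentiable_iff]
  intro z hz
  exact (hasDerivAt_cn n ⟨z, hz⟩).differentiableAt.differentiableWithinAt

lemma D_cn (n : ℕ) (τ : ℍ) :
    normalizedDerivOfComplex (cn n) τ = (2 * π * Complex.I)⁻¹ * (cn n τ * ((1 / 2 + 2 * n) / τ)) := by
  unfold normalizedDerivOfComplex
  rw [(hasDerivAt_cn n τ).deriv]

/-- `F(-1/τ) = c τ^{2n} G(τ)` -/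
def Tr (n : ℕ) (F G : ℍ → ℂ) : Prop := ∀ τ : ℍ, F (ModularGroup.S • τ) = cn n τ * G τ

lemma D_S {n : ℕ} {F G : ℍ → ℂ} (hF : MDiff F) (hG : MDiff G) (h : Tr n F G) (τ : ℍ) :
    normalizedDerivOfComplex F (ModularGroup.S • τ) =
      (τ : ℂ) ^ 2 * (normalizedDerivOfComplex (cn n) τ * G τ + cn n τ * normalizedDerivOfComplex G τ) := by
  have hτ : (τ : ℂ) ≠ 0 := τ.ne_zero
  have e1 : F ∣[(0 : ℤ)] ModularGroup.S = cn n * G := by
    funext w
    rw [SL_slash_apply, h w]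
    simp
  have h1 := congrFun (normalizedDerivOfComplex_SL_slash (k := 0) hF (γ := ModularGroup.S)) τ
  rw [e1, normalizedDerivOfComplex_mul _ _ (mdiff_cn n) hG] at h1
  simp only [Pi.sub_apply, Pi.add_apply, Pi.mul_apply, Int.cast_zero, zero_mul, sub_zero] at h1
  rw [h1, SL_slash_apply, ModularGroup.denom_S]
  simp only [zero_add]
  field_simp

lemma E2_S (τ : ℍ) : E2 (ModularGroup.S • τ) = (τ : ℂ) ^ 2 * E2 τ + 6 * τ / (π * Complex.I) := by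
  have h1 := congrFun (EisensteinSeries.E2_slash_action ModularGroup.S) τ
  have hτ : (τ : ℂ) ≠ 0 := τ.ne_zero
  have hpi : (π : ℂ) ≠ 0 := by exact_mod_cast Real.pi_ne_zero
  have hI := Complex.I_ne_zero
  rw [SL_slash_apply, ModularGroup.denom_S, Pi.sub_apply, Pi.smul_apply, EisensteinSeries.D2_S,
    riemannZeta_two, smul_eq_mul] at h1
  have e1 : ((τ : ℂ) ^ (-(2 : ℤ))) = ((τ : ℂ) ^ 2)⁻¹ := by
    rw [zpow_neg]; rfl
  rw [e1] at h1
  have h2 : E2 (ModularGroup.S • τ) = (τ : ℂ) ^ 2 *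
      (E2 τ - 1 / (2 * ((π : ℂ) ^ 2 / 6)) * (2 * π * Complex.I / τ)) := by
    rw [← h1]; field_simp
  rw [h2]
  field_simp
  linear_combination (-6 : ℂ) * Complex.I_mul_I

lemma E4_S (τ : ℍ) : (E₄ : ℍ → ℂ) (ModularGroup.S • τ) = (τ : ℂ) ^ 4 * E₄ τ := by
  have h1 := congrFun (Pool.Agent.Y949.J.slash_modularForm E₄ ModularGroup.S) τ
  have hτ : (τ : ℂ) ≠ 0 := τ.ne_zero
  rw [SL_slash_apply, ModularGroup.denom_S] at h1
  rw [← h1, zpow_neg]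
  have : ((τ : ℂ) ^ (4 : ℤ)) = (τ : ℂ) ^ 4 := rfl
  rw [this]
  field_simp

lemma E6_S (τ : ℍ) : (E₆ : ℍ → ℂ) (ModularGroup.S • τ) = (τ : ℂ) ^ 6 * E₆ τ := by
  have h1 := congrFun (Pool.Agent.Y949.J.slash_modularForm E₆ ModularGroup.S) τ
  have hτ : (τ : ℂ) ≠ 0 := τ.ne_zero
  rw [SL_slash_apply, ModularGroup.denom_S] at h1
  rw [← h1, zpow_neg]
  have : ((τ : ℂ) ^ (6 : ℤ)) = (τ : ℂ) ^ 6 := rfl
  rw [this]
  field_simp

lemma cn_add (n m : ℕ) (τ : ℍ) : cn (n + m) τ = cn n τ * (τ : ℂ) ^ (2 * m) := by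
  unfold cn
  rw [mul_add, pow_add]
  ring

lemma Tr.FD {n : ℕ} {F G : ℍ → ℂ} (hF : MDiff F) (hG : MDiff G) (h : Tr n F G) {k : ℂ}
    (hk : k = 1 + 4 * n) : Tr (n + 1) (FD k F) (FD k G) := by
  intro τ
  have hτ : (τ : ℂ) ≠ 0 := τ.ne_zero
  have hpi : (π : ℂ) ≠ 0 := by exact_mod_cast Real.pi_ne_zero
  have hI := Complex.I_ne_zero
  unfold Pool.Agent.V5helper9.FR.FD
  rw [D_S hF hG h, E2_S, h τ, D_cn, cn_add, hk]
  field_simp
  ring

lemma HX.MDiff {F : ℍ → ℂ} {p : PowerSeries ℂ} (h : HX F p) : MDiff F := h.mdiff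

lemma Tr.vF {F G : ℍ → ℂ} {p r : PowerSeries ℂ} (hF : HX F p) (hG : HX G r) (h : Tr 0 F G) (i : Fin 5) :
    Tr (i : ℕ) (vF i F) (vF i G) := by
  have a1 := h.FD hF.mdiff hG.mdiff (k := 1) (by norm_num)
  have a2 := a1.FD (hF.FD 1).mdiff (hG.FD 1).mdiff (k := 5) (by norm_num)
  have a3 := a2.FD ((hF.FD 1).FD 5).mdiff ((hG.FD 1).FD 5).mdiff (k := 9) (by norm_num)
  have a4 := a3.FD (((hF.FD 1).FD 5).FD 9).mdiff (((hG.FD 1).FD 5).FD 9).mdiff (k := 13) (by norm_num)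
  fin_cases i
  · exact h
  · exact a1
  · exact a2
  · exact a3
  · intro τ
    show Pool.Agent.V5helper9.FR.FD 13 _ (ModularGroup.S • τ)
      - (58 * E₄ (ModularGroup.S • τ) * Pool.Agent.V5helper9.FR.FD 5 _ (ModularGroup.S • τ)
        - 176 * E₆ (ModularGroup.S • τ) * Pool.Agent.V5helper9.FR.FD 1 F (ModularGroup.S • τ)
        + 119 * (E₄ (ModularGroup.S • τ)) ^ 2 * F (ModularGroup.S • τ)) =
      cn 4 τ * (Pool.Agent.V5helper9.FR.FD 13 _ τ - (58 * E₄ τ * Pool.Agent.V5helper9.FR.FD 5 _ τ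
        - 176 * E₆ τ * Pool.Agent.V5helper9.FR.FD 1 G τ + 119 * (E₄ τ) ^ 2 * G τ))
    rw [a4 τ, a2 τ, a1 τ, h τ, E4_S, E6_S]
    unfold cn
    ring

end

end Pool.Agent.V5helper9.FR
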